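import Mathlib

set_option autoImplicit false

/-!
# Uniquely 3-weight colourable graphs

The triangle (more generally every disjoint union of `t ≥ 1` triangles) has, up to isomorphism,
exactly one edge `{1, 2, 3}`-weighting that properly colours the vertices by sums.
-/

namespace Pool.Agent.Results.MP_9e9a14_co.UniqueTriangles

open Finset

variable {V : Type} [Fintype V]

/-- the sum `σ_w(v)` of the weights of the edges at `v` -/
noncomputable def vertexSum (G : SimpleGraph V) (w : Sym2 V → ℕ) (v : V) : ℕ := by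
  classical exact ∑ u ∈ univ.filter (fun u => G.Adj v u), w s(v, u)

/-- `w` is an edge `{1, 2, 3}`-weighting of `G` that properly colours `V(G)` by sums (only the
values of `w` on edges of `G` matter). -/
def IsProperWeighting (G : SimpleGraph V) (w : Sym2 V → ℕ) : Prop :=
  (∀ e ∈ G.edgeSet, w e = 1 ∨ w e = 2 ∨ w e = 3) ∧
    ∀ u v, G.Adj u v → vertexSum G w u ≠ vertexSum G w v

/-- two edge weightings are isomorphic if an automorphism of `G` carries one to the other -/
def IsIsomorphic (G : SimpleGraph V) (w w' : Sym2 V → ℕ) : Prop :=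
  ∃ φ : G ≃g G, ∀ e ∈ G.edgeSet, w' (e.map φ) = w e

/-- `G` is uniquely `{1, 2, 3}`-weight colourable -/
def UniquelyWeightColourable (G : SimpleGraph V) : Prop :=
  (∃ w, IsProperWeighting G w) ∧
    ∀ w w', IsProperWeighting G w → IsProperWeighting G w' → IsIsomorphic G w w'

/-- the disjoint union of `t` triangles -/
def triangles (t : ℕ) : SimpleGraph (Fin t × Fin 3) where
  Adj x y := x.1 = y.1 ∧ x.2 ≠ y.2
  symm := ⟨fun _ _ h => ⟨h.1.symm, h.2.symm⟩⟩
  loopless := ⟨fun _ h => h.2 rfl⟩

theorem sum_triangles (t : ℕ) (w : Sym2 (Fin t × Fin 3) → ℕ) (i : Fin t) (a b c : Fin 3)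
    (hab : a ≠ b) (hac : a ≠ c) (hbc : b ≠ c) :
    vertexSum (triangles t) w (i, a) = w s((i, a), (i, b)) + w s((i, a), (i, c)) := by
  classical
  have : (univ.filter (fun u => (triangles t).Adj (i, a) u)) = {(i, b), (i, c)} := by
    ext ⟨j, d⟩
    rw [Finset.mem_filter, Finset.mem_insert, Finset.mem_singleton, Prod.mk.injEq, Prod.mk.injEq]
    constructor
    · rintro ⟨-, h1, h2⟩
      have h1' : i = j := h1
      have h2' : a ≠ d := h2
      have key : ∀ a b c d : Fin 3, a ≠ b → a ≠ c → b ≠ c → a ≠ d → d = b ∨ d = c := by decide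
      rcases key a b c d hab hac hbc h2' with rfl | rfl
      · left; exact ⟨h1'.symm, rfl⟩
      · right; exact ⟨h1'.symm, rfl⟩
    · rintro (⟨rfl, rfl⟩ | ⟨rfl, rfl⟩)
      · exact ⟨Finset.mem_univ _, rfl, hab⟩
      · exact ⟨Finset.mem_univ _, rfl, hac⟩
  unfold vertexSum
  have h2 : ∑ u ∈ univ.filter (fun u => (triangles t).Adj (i, a) u), w s((i, a), u) =
      w s((i, a), (i, b)) + w s((i, a), (i, c)) := by
    rw [this, Finset.sum_pair]
    intro h
    exact hbc (Prod.mk.inj h).2
  convert h2

/-- the weight of the edge of the `i`-th triangle opposite to `a` -/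
def opp (t : ℕ) (w : Sym2 (Fin t × Fin 3) → ℕ) (i : Fin t) (a : Fin 3) : ℕ :=
  w s((i, a + 1), (i, a + 2))

theorem opp_eq (t : ℕ) (w : Sym2 (Fin t × Fin 3) → ℕ) (i : Fin t) (a b c : Fin 3)
    (hab : a ≠ b) (hac : a ≠ c) (hbc : b ≠ c) : w s((i, b), (i, c)) = opp t w i a := by
  unfold opp
  have h : (b = a + 1 ∧ c = a + 2) ∨ (b = a + 2 ∧ c = a + 1) := by
    revert a b c; decide
  rcases h with ⟨rfl, rfl⟩ | ⟨rfl, rfl⟩
  · rfl
  · rw [Sym2.eq_swap]

theorem proper_iff (t : ℕ) (w : Sym2 (Fin t × Fin 3) → ℕ) :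
    IsProperWeighting (triangles t) w ↔
      ∀ i, (∀ a, opp t w i a = 1 ∨ opp t w i a = 2 ∨ opp t w i a = 3) ∧
        Function.Injective (opp t w i) := by
  have third : ∀ a b : Fin 3, a ≠ b → ∃ c, a ≠ c ∧ b ≠ c := by decide
  constructor
  · rintro ⟨h1, h2⟩ i
    refine ⟨fun a => h1 _ ?_, ?_⟩
    · rw [SimpleGraph.mem_edgeSet]
      refine ⟨rfl, ?_⟩
      show a + 1 ≠ a + 2
      revert a; decide
    · intro a b hab
      by_contra hne
      obtain ⟨c, hac, hbc⟩ := third a b hne
      apply h2 (i, a) (i, b) ⟨rfl, hne⟩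
      rw [sum_triangles t w i a b c hne hac hbc,
        sum_triangles t w i b a c (Ne.symm hne) hbc hac,
        opp_eq t w i c a b hac.symm hbc.symm hne,
        opp_eq t w i b a c (Ne.symm hne) hbc hac,
        opp_eq t w i c b a hbc.symm hac.symm (Ne.symm hne),
        opp_eq t w i a b c hne hac hbc, hab]
  · intro h
    refine ⟨?_, ?_⟩
    · intro e
      induction e using Sym2.ind with
      | _ x y =>
        obtain ⟨i, a⟩ := x
        obtain ⟨j, b⟩ := y
        rw [SimpleGraph.mem_edgeSet]
        rintro ⟨hij, hne⟩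
        simp only at hij hne
        subst hij
        obtain ⟨c, hac, hbc⟩ := third a b hne
        rw [opp_eq t w i c a b hac.symm hbc.symm hne]
        exact (h i).1 c
    · rintro ⟨i, a⟩ ⟨j, b⟩ ⟨hij, hne⟩
      simp only at hij hne
      subst hij
      obtain ⟨c, hac, hbc⟩ := third a b hne
      rw [sum_triangles t w i a b c hne hac hbc,
        sum_triangles t w i b a c (Ne.symm hne) hbc hac,
        opp_eq t w i c a b hac.symm hbc.symm hne,
        opp_eq t w i b a c (Ne.symm hne) hbc hac,
        opp_eq t w i c b a hbc.symm hac.symm (Ne.symm hne),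
        opp_eq t w i a b c hne hac hbc]
      intro heq
      have : opp t w i b = opp t w i a := by omega
      exact hne ((h i).2 this).symm

/-- two injective maps `Fin 3 → {1, 2, 3}` differ by a permutation of `Fin 3` -/
theorem exists_perm (f g : Fin 3 → ℕ) (hf : ∀ a, f a = 1 ∨ f a = 2 ∨ f a = 3)
    (hg : ∀ a, g a = 1 ∨ g a = 2 ∨ g a = 3) (hfi : Function.Injective f)
    (hgi : Function.Injective g) : ∃ π : Equiv.Perm (Fin 3), ∀ a, g (π a) = f a := by
  have hs : ∀ a, ∃ b, g b = f a := by
    intro a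
    have himg : univ.image g = {1, 2, 3} := by
      apply Finset.eq_of_subset_of_card_le
      · intro x hx
        obtain ⟨b, -, rfl⟩ := mem_image.1 hx
        rcases hg b with h | h | h <;> simp [h]
      · rw [card_image_of_injective _ hgi]; simp
    have : f a ∈ univ.image g := by
      rw [himg]
      rcases hf a with h | h | h <;> simp [h]
    obtain ⟨b, -, hb⟩ := mem_image.1 this
    exact ⟨b, hb⟩
  choose p hp using hs
  have hinj : Function.Injective p := by
    intro a b hab
    apply hfi
    rw [← hp a, ← hp b, hab]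
  exact ⟨Equiv.ofBijective p (Finite.injective_iff_bijective.1 hinj), hp⟩

/-- a family of permutations, as an automorphism of the union of triangles -/
def autOf (t : ℕ) (π : Fin t → Equiv.Perm (Fin 3)) : triangles t ≃g triangles t where
  toFun x := (x.1, π x.1 x.2)
  invFun x := (x.1, (π x.1).symm x.2)
  left_inv x := by simp
  right_inv x := by simp
  map_rel_iff' := by
    rintro ⟨i, a⟩ ⟨j, b⟩
    simp only [triangles, Equiv.coe_fn_mk]
    constructor
    · rintro ⟨rfl, h⟩
      exact ⟨rfl, fun hab => h (by rw [hab])⟩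
    · rintro ⟨rfl, h⟩
      exact ⟨rfl, fun hab => h ((π i).injective hab)⟩

theorem unique_triangles (t : ℕ) : UniquelyWeightColourable (triangles t) := by
  constructor
  · -- the edge opposite to `a` gets the weight `a + 1`
    refine ⟨fun e => Sym2.lift ⟨fun x y : Fin t × Fin 3 => 4 - ((x.2 : ℕ) + (y.2 : ℕ)),
      fun x y => by simp only [add_comm]⟩ e, (proper_iff t _).2 fun i => ⟨?_, ?_⟩⟩
    · intro a
      simp only [opp, Sym2.lift_mk]
      revert a; decide
    · intro a b
      simp only [opp, Sym2.lift_mk]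
      revert a b; decide
  · intro w w' hw hw'
    rw [proper_iff] at hw hw'
    choose π hπ using fun i => exists_perm (opp t w i) (opp t w' i) (hw i).1 (hw' i).1 (hw i).2
      (hw' i).2
    refine ⟨autOf t π, ?_⟩
    intro e
    induction e using Sym2.ind with
    | _ x y =>
      obtain ⟨i, a⟩ := x
      obtain ⟨j, b⟩ := y
      rw [SimpleGraph.mem_edgeSet]
      rintro ⟨hij, hne⟩
      simp only at hij hne
      subst hij
      have third : ∀ a b : Fin 3, a ≠ b → ∃ c, a ≠ c ∧ b ≠ c := by decide
      obtain ⟨c, hac, hbc⟩ := third a b hne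
      rw [Sym2.map_mk]
      show w' s((i, π i a), (i, π i b)) = w s((i, a), (i, b))
      rw [opp_eq t w i c a b hac.symm hbc.symm hne,
        opp_eq t w' i (π i c) (π i a) (π i b) (fun h => hac ((π i).injective h).symm)
          (fun h => hbc ((π i).injective h).symm) (fun h => hne ((π i).injective h)), hπ]

/-- Every disjoint union of `t ≥ 1` triangles has an edge and is uniquely `{1, 2, 3}`-weight
colourable, and for `t = 1` this graph, the triangle `K_3`, is connected. -/
theorem result :
    (∀ t : ℕ, 1 ≤ t → (triangles t).edgeSet.Nonempty ∧ UniquelyWeightColourable (triangles t)) ∧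
      (triangles 1).Connected := by
  refine ⟨fun t ht => ⟨?_, unique_triangles t⟩, ?_⟩
  · refine ⟨s((⟨0, by omega⟩, 0), (⟨0, by omega⟩, 1)), ?_⟩
    rw [SimpleGraph.mem_edgeSet]
    refine ⟨rfl, ?_⟩
    show (0 : Fin 3) ≠ 1
    decide
  · have : Nonempty (Fin 1 × Fin 3) := ⟨(0, 0)⟩
    refine ⟨?_⟩
    rintro ⟨i, a⟩ ⟨j, b⟩
    have hij : i = j := Subsingleton.elim _ _
    subst hij
    by_cases hab : a = b
    · rw [hab]
    · exact SimpleGraph.Adj.reachable ⟨rfl, hab⟩

end Pool.Agent.Results.MP_9e9a14_co.UniqueTriangles
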